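import Pool.Agent.H484.AL.Stm

namespace Pool.Agent.H484.AL

open Filter Topology

theorem t_ASY1 : S_ASY1 := by
  intro e B c0 C ε he hB hc0 hC hε
  have hB1 : (64 : ℝ) ≤ (B : ℝ) := by exact_mod_cast hB
  have hBpos : (0 : ℝ) < (B : ℝ) := by linarith
  have hlB : 1 ≤ Real.log (B : ℝ) := by
    rw [Real.le_log_iff_exp_le hBpos]
    have := Real.exp_one_lt_d9
    linarith
  have hlB0 : 0 < Real.log (B : ℝ) := by linarith
  have heR : (2 : ℝ) ≤ (e : ℝ) := by exact_mod_cast he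
  set η : ℝ := ε / 4 with hη
  have hη0 : 0 < η := by positivity
  have hcast : Tendsto (fun J : ℕ => (J : ℝ)) atTop atTop := tendsto_natCast_atTop_atTop
  have hlogt : Tendsto (fun J : ℕ => Real.log (J : ℝ)) atTop atTop :=
    Real.tendsto_log_atTop.comp hcast
  have e1 : ∀ᶠ J : ℕ in atTop, 16 * Real.log (B : ℝ) ≤ Real.log (J : ℝ) :=
    hlogt.eventually_ge_atTop _
  have hlo : ∀ (c : ℝ) (s : ℝ), 0 < c → 0 < s →
      ∀ᶠ J : ℕ in atTop, Real.log (J : ℝ) ≤ c * (J : ℝ) ^ s := by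
    intro c s hc hs
    have h := (isLittleO_log_rpow_atTop hs).bound hc
    have h2 := hcast.eventually h
    filter_upwards [h2, eventually_ge_atTop 1] with J hJ hJ1
    have hJ1' : (1 : ℝ) ≤ (J : ℝ) := by exact_mod_cast hJ1
    have h3 : 0 ≤ Real.log (J : ℝ) := Real.log_nonneg hJ1'
    have h4 : 0 ≤ (J : ℝ) ^ s := Real.rpow_nonneg (by linarith) _
    rw [Real.norm_of_nonneg h3, Real.norm_of_nonneg h4] at hJ
    exact hJ
  have e2 : ∀ᶠ J : ℕ in atTop, Real.log (J : ℝ) ≤ (1 / (e : ℝ)) * (J : ℝ) ^ (1 : ℝ) :=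
    hlo _ _ (by positivity) one_pos
  have e3 : ∀ᶠ J : ℕ in atTop, 4 * C / ε ≤ (J : ℝ) := hcast.eventually_ge_atTop _
  have e4 : ∀ᶠ J : ℕ in atTop, 4 * C / ε ≤ (J : ℝ) ^ (1 / 4 : ℝ) :=
    ((tendsto_rpow_atTop (by norm_num : (0 : ℝ) < 1 / 4)).comp hcast).eventually_ge_atTop _
  have e5 : ∀ᶠ J : ℕ in atTop,
      Real.log (J : ℝ) ≤ (c0 * η / 2 / (C / η)) * (J : ℝ) ^ (1 / 2 : ℝ) :=
    hlo _ _ (by positivity) (by norm_num)
  have hall := ((((e1.and e2).and e3).and e4).and e5).and (eventually_ge_atTop 1)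
  obtain ⟨J0, hJ0⟩ := eventually_atTop.1 hall
  refine ⟨c0 * η / (16 * Real.log (B : ℝ)), J0, by positivity, ?_⟩
  intro J hJ
  obtain ⟨⟨⟨⟨⟨h1, h2⟩, h3⟩, h4⟩, h5⟩, h6⟩ := hJ0 J hJ
  have hJ1 : (1 : ℝ) ≤ (J : ℝ) := by exact_mod_cast h6
  have hJpos : (0 : ℝ) < (J : ℝ) := by linarith
  set lJ := Real.log (J : ℝ) with hlJ
  set lB := Real.log (B : ℝ) with hlBd
  set L : ℝ := lJ / lB with hL
  have hL16 : 16 ≤ L := by
    rw [hL, le_div_iff₀ hlB0]; exact h1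
  have hlJ0 : 0 < lJ := by linarith
  have hLlB : L * lB = lJ := by rw [hL]; field_simp
  have hLle : L ≤ lJ := by nlinarith
  have hx0 : 0 ≤ ((e : ℝ) - 1 / 2) * L := by
    apply mul_nonneg <;> linarith
  have hx1 : 0 ≤ ((e : ℝ) - 1 / 4) * L := by
    apply mul_nonneg <;> linarith
  obtain ⟨t0, ht0⟩ : ∃ t : ℕ, t = ⌈((e : ℝ) - 1 / 2) * L⌉₊ := ⟨_, rfl⟩
  obtain ⟨t1, ht1⟩ : ∃ t : ℕ, t = ⌊((e : ℝ) - 1 / 4) * L⌋₊ := ⟨_, rfl⟩
  have ht0l : ((e : ℝ) - 1 / 2) * L ≤ (t0 : ℝ) := by rw [ht0]; exact Nat.le_ceil _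
  have ht0u : (t0 : ℝ) < ((e : ℝ) - 1 / 2) * L + 1 := by rw [ht0]; exact Nat.ceil_lt_add_one hx0
  have ht1u : (t1 : ℝ) ≤ ((e : ℝ) - 1 / 4) * L := by rw [ht1]; exact Nat.floor_le hx1
  have ht1l : ((e : ℝ) - 1 / 4) * L < (t1 : ℝ) + 1 := by rw [ht1]; exact Nat.lt_floor_add_one _
  have hTl : L / 8 ≤ (t1 : ℝ) - t0 := by nlinarith
  have hTu : (t1 : ℝ) - t0 ≤ lJ := by nlinarith
  have hT0 : 0 ≤ (t1 : ℝ) - t0 := by linarith
  have ht01 : t0 ≤ t1 := by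
    have : (t0 : ℝ) ≤ (t1 : ℝ) := by linarith
    exact_mod_cast this
  have ht1J : t1 ≤ J := by
    have h2' : lJ ≤ (1 / (e : ℝ)) * (J : ℝ) := by simpa using h2
    have h2'' : (e : ℝ) * lJ ≤ (J : ℝ) := by
      have := mul_le_mul_of_nonneg_left h2' (by linarith : (0 : ℝ) ≤ (e : ℝ))
      rw [← mul_assoc, mul_one_div_cancel (by linarith : (e : ℝ) ≠ 0), one_mul] at this
      exact this
    have : (t1 : ℝ) ≤ (J : ℝ) := by nlinarith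
    exact_mod_cast this
  -- powers of `B`
  have hBrpow : ∀ x : ℝ, (B : ℝ) ^ (x * L) = (J : ℝ) ^ x := by
    intro x
    rw [Real.rpow_def_of_pos hBpos, Real.rpow_def_of_pos hJpos]
    congr 1
    rw [← hlJ, ← hlBd, ← hLlB]; ring
  have hBt0 : (J : ℝ) ^ ((e : ℝ) - 1 / 2) ≤ (B : ℝ) ^ t0 := by
    rw [← hBrpow, ← Real.rpow_natCast (B : ℝ) t0]
    exact Real.rpow_le_rpow_of_exponent_le (by linarith) ht0l
  have hBt1 : (B : ℝ) ^ t1 ≤ (J : ℝ) ^ ((e : ℝ) - 1 / 4) := by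
    rw [← hBrpow, ← Real.rpow_natCast (B : ℝ) t1]
    exact Real.rpow_le_rpow_of_exponent_le (by linarith) ht1u
  have hBt0pos : 0 < (B : ℝ) ^ t0 := by positivity
  have hJe : 0 < (J : ℝ) ^ e := by positivity
  have hsq : (J : ℝ) ^ (1 / 2 : ℝ) * (J : ℝ) ^ (1 / 2 : ℝ) = (J : ℝ) := by
    rw [← Real.rpow_add hJpos]; norm_num
  have hhalf : 0 < (J : ℝ) ^ (1 / 2 : ℝ) := Real.rpow_pos_of_pos hJpos _
  have hquar : 0 < (J : ℝ) ^ (1 / 4 : ℝ) := Real.rpow_pos_of_pos hJpos _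
  have hJe2 : (J : ℝ) ^ e = (J : ℝ) ^ ((e : ℝ) - 1 / 2) * (J : ℝ) ^ (1 / 2 : ℝ) := by
    rw [← Real.rpow_add hJpos, ← Real.rpow_natCast]; congr 1; ring
  have hJe4 : (J : ℝ) ^ e = (J : ℝ) ^ ((e : ℝ) - 1 / 4) * (J : ℝ) ^ (1 / 4 : ℝ) := by
    rw [← Real.rpow_add hJpos, ← Real.rpow_natCast]; congr 1; ring
  -- `J^(2e-1)/B^t0 ≤ J^e / J^(1/2)`
  have hratio : (J : ℝ) ^ (2 * e - 1) / (B : ℝ) ^ t0 ≤ (J : ℝ) ^ e / (J : ℝ) ^ (1 / 2 : ℝ) := by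
    have h7 : (J : ℝ) ^ (2 * e - 1) * (J : ℝ) = (J : ℝ) ^ e * (J : ℝ) ^ e := by
      rw [← pow_succ, ← pow_add]; congr 1; omega
    rw [div_le_div_iff₀ hBt0pos hhalf]
    have h8 : (J : ℝ) ^ (2 * e - 1) * (J : ℝ) ^ (1 / 2 : ℝ) =
        (J : ℝ) ^ e * (J : ℝ) ^ ((e : ℝ) - 1 / 2) := by
      have h9 : (J : ℝ) ^ (2 * e - 1) * (J : ℝ) ^ (1 / 2 : ℝ) * (J : ℝ) ^ (1 / 2 : ℝ) =
        (J : ℝ) ^ e * (J : ℝ) ^ ((e : ℝ) - 1 / 2) * (J : ℝ) ^ (1 / 2 : ℝ) := by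
        rw [mul_assoc, hsq, h7, mul_assoc, ← hJe2]
      exact mul_right_cancel₀ (ne_of_gt hhalf) h9
    rw [h8]
    exact mul_le_mul_of_nonneg_left hBt0 hJe.le
  refine ⟨t0, t1, ht01, ht1J, ?_, ?_⟩
  · have ha : ((t1 : ℝ) - t0) / (B : ℝ) ^ J ≤ ε / (4 * C) := by
      have hBJ : (J : ℝ) * (J : ℝ) ≤ (B : ℝ) ^ J := by
        have h10 : J < 2 ^ J := Nat.lt_two_pow_self
        have h11 : (J : ℝ) ≤ (2 : ℝ) ^ J := by exact_mod_cast h10.le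
        have h12 : ((2 : ℝ) ^ J) * ((2 : ℝ) ^ J) = (4 : ℝ) ^ J := by
          rw [← mul_pow]; norm_num
        have h13 : (4 : ℝ) ^ J ≤ (B : ℝ) ^ J :=
          pow_le_pow_left₀ (by norm_num) (by linarith) J
        calc (J : ℝ) * (J : ℝ) ≤ ((2 : ℝ) ^ J) * ((2 : ℝ) ^ J) :=
              mul_le_mul h11 h11 hJpos.le (by positivity)
          _ = (4 : ℝ) ^ J := h12
          _ ≤ _ := h13
      have hTJ : (t1 : ℝ) - t0 ≤ (J : ℝ) := by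
        have : (t1 : ℝ) ≤ (J : ℝ) := by exact_mod_cast ht1J
        have h0 : (0 : ℝ) ≤ (t0 : ℝ) := Nat.cast_nonneg _
        linarith
      have hBJpos : 0 < (B : ℝ) ^ J := by positivity
      rw [div_le_div_iff₀ hBJpos (by positivity)]
      have h14 : 4 * C ≤ ε * (J : ℝ) := by
        rw [div_le_iff₀ hε] at h3; linarith
      calc ((t1 : ℝ) - t0) * (4 * C) ≤ (J : ℝ) * (ε * (J : ℝ)) :=
            mul_le_mul hTJ h14 (by positivity) hJpos.le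
        _ = ε * ((J : ℝ) * (J : ℝ)) := by ring
        _ ≤ ε * (B : ℝ) ^ J := mul_le_mul_of_nonneg_left hBJ hε.le
    have hb : (B : ℝ) ^ t1 / (J : ℝ) ^ e ≤ ε / (4 * C) := by
      rw [div_le_div_iff₀ hJe (by positivity)]
      have h14 : 4 * C ≤ ε * (J : ℝ) ^ (1 / 4 : ℝ) := by
        rw [div_le_iff₀ hε] at h4; linarith
      calc (B : ℝ) ^ t1 * (4 * C) ≤ (J : ℝ) ^ ((e : ℝ) - 1 / 4) * (ε * (J : ℝ) ^ (1 / 4 : ℝ)) :=
            mul_le_mul hBt1 h14 (by positivity) (Real.rpow_nonneg hJpos.le _)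
        _ = ε * ((J : ℝ) ^ ((e : ℝ) - 1 / 4) * (J : ℝ) ^ (1 / 4 : ℝ)) := by ring
        _ = ε * (J : ℝ) ^ e := by rw [← hJe4]
    have hc : C * (((t1 : ℝ) - t0) / (B : ℝ) ^ J + (B : ℝ) ^ t1 / (J : ℝ) ^ e) ≤
        C * (ε / (4 * C) + ε / (4 * C)) :=
      mul_le_mul_of_nonneg_left (add_le_add ha hb) hC.le
    have hd : C * (ε / (4 * C) + ε / (4 * C)) = ε / 2 := by field_simp; ring
    rw [hd] at hc
    rw [hη]
    linarith
  · set T : ℝ := (t1 : ℝ) - t0 with hTdef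
    have hCη : 0 < C / η := by positivity
    have hsec : C / η * T ^ 2 * (J : ℝ) ^ (2 * e - 1) / (B : ℝ) ^ t0 ≤
        c0 * η / 2 * T * (J : ℝ) ^ e := by
      have h15 : C / η * T ^ 2 * (J : ℝ) ^ (2 * e - 1) / (B : ℝ) ^ t0 =
          C / η * T ^ 2 * ((J : ℝ) ^ (2 * e - 1) / (B : ℝ) ^ t0) := by ring
      rw [h15]
      have h16 : C / η * T ^ 2 * ((J : ℝ) ^ (2 * e - 1) / (B : ℝ) ^ t0) ≤
          C / η * T ^ 2 * ((J : ℝ) ^ e / (J : ℝ) ^ (1 / 2 : ℝ)) :=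
        mul_le_mul_of_nonneg_left hratio (by positivity)
      have h17 : C / η * T ^ 2 ≤ c0 * η / 2 * T * (J : ℝ) ^ (1 / 2 : ℝ) := by
        have h18 : C / η * T ≤ c0 * η / 2 * (J : ℝ) ^ (1 / 2 : ℝ) := by
          calc C / η * T ≤ C / η * lJ := mul_le_mul_of_nonneg_left hTu hCη.le
            _ ≤ C / η * ((c0 * η / 2 / (C / η)) * (J : ℝ) ^ (1 / 2 : ℝ)) :=
              mul_le_mul_of_nonneg_left h5 hCη.le
            _ = c0 * η / 2 * (J : ℝ) ^ (1 / 2 : ℝ) := by field_simp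
        calc C / η * T ^ 2 = (C / η * T) * T := by ring
          _ ≤ (c0 * η / 2 * (J : ℝ) ^ (1 / 2 : ℝ)) * T := mul_le_mul_of_nonneg_right h18 hT0
          _ = _ := by ring
      have h19 : C / η * T ^ 2 * ((J : ℝ) ^ e / (J : ℝ) ^ (1 / 2 : ℝ)) ≤
          c0 * η / 2 * T * (J : ℝ) ^ (1 / 2 : ℝ) * ((J : ℝ) ^ e / (J : ℝ) ^ (1 / 2 : ℝ)) :=
        mul_le_mul_of_nonneg_right h17 (by positivity)
      have h20 : c0 * η / 2 * T * (J : ℝ) ^ (1 / 2 : ℝ) * ((J : ℝ) ^ e / (J : ℝ) ^ (1 / 2 : ℝ)) =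
          c0 * η / 2 * T * (J : ℝ) ^ e := by field_simp
      linarith
    have hfirst : c0 * η / (16 * lB) * (J : ℝ) ^ e * lJ ≤ c0 * η / 2 * T * (J : ℝ) ^ e := by
      have h21 : c0 * η / (16 * lB) * (J : ℝ) ^ e * lJ =
          c0 * η / 2 * (L / 8) * (J : ℝ) ^ e := by
        rw [hL]; field_simp; ring
      rw [h21]
      have h22 : c0 * η / 2 * (L / 8) ≤ c0 * η / 2 * T :=
        mul_le_mul_of_nonneg_left hTl (by positivity)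
      exact mul_le_mul_of_nonneg_right h22 hJe.le
    have h23 : c0 * η * T * (J : ℝ) ^ e =
        c0 * η / 2 * T * (J : ℝ) ^ e + c0 * η / 2 * T * (J : ℝ) ^ e := by ring
    linarith

end Pool.Agent.H484.AL
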