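import Pool.Agent.H484.AL.Stm

namespace Pool.Agent.H484.AL

open Filter Topology

theorem t_ASY2 : S_ASY2 := by
  intro e B c1 J0 he hB hc1
  have hB1 : (64 : ℝ) ≤ (B : ℝ) := by exact_mod_cast hB
  have hBpos : (0 : ℝ) < (B : ℝ) := by linarith
  have hlB : 1 ≤ Real.log (B : ℝ) := by
    rw [Real.le_log_iff_exp_le hBpos]
    have := Real.exp_one_lt_d9
    linarith
  have hlB0 : 0 < Real.log (B : ℝ) := by linarith
  have heR : (2 : ℝ) ≤ (e : ℝ) := by exact_mod_cast he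
  have he0 : (0 : ℝ) < (e : ℝ) := by linarith
  have hcast : Tendsto (fun J : ℕ => (J : ℝ)) atTop atTop := tendsto_natCast_atTop_atTop
  have hlogt : Tendsto (fun J : ℕ => Real.log (J : ℝ)) atTop atTop :=
    Real.tendsto_log_atTop.comp hcast
  set D : ℝ := 80 * (e : ℝ) * Real.log (B : ℝ) with hD
  have hD0 : 0 < D := by positivity
  have hD1 : 160 ≤ D := by rw [hD]; nlinarith
  have e1 : ∀ᶠ N : ℕ in atTop, D * (J0 + 1) ≤ Real.log (N : ℝ) :=
    hlogt.eventually_ge_atTop _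
  have e2 : ∀ᶠ N : ℕ in atTop, D * D ≤ Real.log (N : ℝ) :=
    hlogt.eventually_ge_atTop _
  have e3 : ∀ᶠ N : ℕ in atTop, D * (Real.log 8 + Real.log (B : ℝ)) ≤ Real.log (N : ℝ) :=
    hlogt.eventually_ge_atTop _
  have hall := ((e1.and e2).and e3).and (eventually_ge_atTop 1)
  obtain ⟨N0, hN0⟩ := eventually_atTop.1 hall
  refine ⟨c1 / (2 * D ^ e), N0, by positivity, ?_⟩
  intro N hN
  obtain ⟨⟨⟨h1, h2⟩, h3⟩, h4⟩ := hN0 N hN
  have hN1 : (1 : ℝ) ≤ (N : ℝ) := by exact_mod_cast h4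
  have hNpos : (0 : ℝ) < (N : ℝ) := by linarith
  set lN := Real.log (N : ℝ) with hlN
  set lB := Real.log (B : ℝ) with hlBd
  have hlN0 : 0 < lN := by nlinarith
  set x : ℝ := lN / (40 * (e : ℝ) * lB) with hx
  have hden : 0 < 40 * (e : ℝ) * lB := by positivity
  have hx0 : 0 ≤ x := by positivity
  have hxD : x = 2 * (lN / D) := by rw [hx, hD]; field_simp; norm_num
  obtain ⟨J, hJ⟩ : ∃ t : ℕ, t = ⌊x⌋₊ := ⟨_, rfl⟩
  have hJu : (J : ℝ) ≤ x := by rw [hJ]; exact Nat.floor_le hx0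
  have hJl : x < (J : ℝ) + 1 := by rw [hJ]; exact Nat.lt_floor_add_one _
  have hq1 : (J0 : ℝ) + 1 ≤ lN / D := by rw [le_div_iff₀ hD0]; linarith
  have hq2 : D ≤ lN / D := by rw [le_div_iff₀ hD0]; exact h2
  have hJ0n : (0 : ℝ) ≤ (J0 : ℝ) := Nat.cast_nonneg _
  have hJq : lN / D ≤ (J : ℝ) := by linarith
  have hJ0 : J0 ≤ J := by
    have : (J0 : ℝ) ≤ (J : ℝ) := by linarith
    exact_mod_cast this
  have hJ1r : (1 : ℝ) ≤ (J : ℝ) := by linarith
  have hJ1 : 1 ≤ J := by exact_mod_cast hJ1r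
  have hJpos : (0 : ℝ) < (J : ℝ) := by linarith
  refine ⟨J, hJ0, hJ1, ?_, ?_, ?_⟩
  · have h5 : ((B ^ (40 * e * J) : ℕ) : ℝ) ≤ (N : ℝ) := by
      rw [← Real.log_le_log_iff (by positivity) hNpos, Nat.cast_pow, Real.log_pow, ← hlBd, ← hlN]
      push_cast
      have h6 : (J : ℝ) * (40 * (e : ℝ) * lB) ≤ lN := by
        rw [hx] at hJu
        rwa [le_div_iff₀ hden] at hJu
      calc 40 * (e : ℝ) * (J : ℝ) * lB = (J : ℝ) * (40 * (e : ℝ) * lB) := by ring
        _ ≤ lN := h6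
    exact_mod_cast h5
  · have hpw : 0 < (N : ℝ) ^ (1 / (80 * (e : ℝ))) := Real.rpow_pos_of_pos hNpos _
    rw [← Real.log_le_log_iff (by positivity) (by positivity),
      Real.log_mul (by norm_num) (ne_of_gt hpw), Real.log_rpow hNpos, Real.log_pow, ← hlBd, ← hlN]
    have h7 : x * lB = 2 * (lN / (80 * (e : ℝ))) := by rw [hx]; field_simp; norm_num
    have h8 : 1 / (80 * (e : ℝ)) * lN = lN / (80 * (e : ℝ)) := by ring
    have h9 : lN / (80 * (e : ℝ)) = (lN / D) * lB := by rw [hD]; field_simp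
    have h10 : Real.log 8 + lB ≤ lN / D := by rw [le_div_iff₀ hD0]; linarith
    have h11 : Real.log 8 + lB ≤ lN / (80 * (e : ℝ)) := by
      rw [h9]
      have h12 : 0 ≤ lN / D := by positivity
      nlinarith
    have h13 : x * lB < ((J : ℝ) + 1) * lB := mul_lt_mul_of_pos_right hJl hlB0
    rw [h8]
    nlinarith
  · -- `log J ≥ (1/2) loglog N`
    have hlN1 : 1 < lN := by nlinarith
    have hll : 0 < Real.log lN := Real.log_pos hlN1
    have hsqrt : lN ≤ (J : ℝ) ^ 2 := by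
      have h14 : lN ≤ (lN / D) ^ 2 := by
        have h15 : (lN / D) ^ 2 = (lN / D) * (lN / D) := sq _
        have h16 : (lN / D) * D = lN := by field_simp
        calc lN = (lN / D) * D := h16.symm
          _ ≤ (lN / D) * (lN / D) := mul_le_mul_of_nonneg_left hq2 (by positivity)
          _ = (lN / D) ^ 2 := h15.symm
      calc lN ≤ (lN / D) ^ 2 := h14
        _ ≤ (J : ℝ) ^ 2 := pow_le_pow_left₀ (by positivity) hJq 2
    have hlogJ : Real.log lN / 2 ≤ Real.log (J : ℝ) := by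
      have h17 := Real.log_le_log hlN0 hsqrt
      rw [Real.log_pow] at h17
      push_cast at h17
      linarith
    have hpow : (lN / D) ^ e ≤ (J : ℝ) ^ e := pow_le_pow_left₀ (by positivity) hJq e
    have h18 : c1 / (2 * D ^ e) * lN ^ e * Real.log lN =
        c1 * (lN / D) ^ e * (Real.log lN / 2) := by
      rw [div_pow]; field_simp
    rw [h18]
    have h19 : c1 * (lN / D) ^ e ≤ c1 * (J : ℝ) ^ e := mul_le_mul_of_nonneg_left hpow hc1.le
    exact mul_le_mul h19 hlogJ (by positivity) (by positivity)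

end Pool.Agent.H484.AL
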