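import Pool.Agent.H484.AL.Stm

namespace Pool.Agent.H484.AL

open Filter Topology

theorem t_ASYE : S_ASYE := by
  intro c0 ε hε
  have hcast : Tendsto (fun J : ℕ => (J : ℝ)) atTop atTop := tendsto_natCast_atTop_atTop
  have hlogt : Tendsto (fun J : ℕ => Real.log (J : ℝ)) atTop atTop :=
    Real.tendsto_log_atTop.comp hcast
  -- conditions on `n`
  have f1 : ∀ᶠ n : ℕ in atTop, 12 / ε ≤ (n : ℝ) := hcast.eventually_ge_atTop _
  have f2 : ∀ᶠ n : ℕ in atTop, 48 * Real.log (6 / ε) ≤ Real.log (n : ℝ) :=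
    hlogt.eventually_ge_atTop _
  obtain ⟨n0, hn0⟩ := eventually_atTop.1 ((f1.and f2).and (eventually_ge_atTop (c0 ^ 2 + 1)))
  have e1 : ∀ᶠ N : ℕ in atTop, 64 * ((n0 : ℝ) + 1) ≤ Real.log (N : ℝ) :=
    hlogt.eventually_ge_atTop _
  have e2 : ∀ᶠ N : ℕ in atTop, 4096 ≤ Real.log (N : ℝ) := hlogt.eventually_ge_atTop _
  have e3 : ∀ᶠ N : ℕ in atTop, 16 * Real.log (6 / ε) ≤ Real.log (N : ℝ) :=
    hlogt.eventually_ge_atTop _
  have e4 : ∀ᶠ N : ℕ in atTop, 8 / ε ≤ (N : ℝ) ^ (48 / 100 : ℝ) :=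
    ((tendsto_rpow_atTop (by norm_num : (0 : ℝ) < 48 / 100)).comp hcast).eventually_ge_atTop _
  have e5 : ∀ᶠ N : ℕ in atTop, 8 ≤ (N : ℝ) ^ (74 / 100 : ℝ) :=
    ((tendsto_rpow_atTop (by norm_num : (0 : ℝ) < 74 / 100)).comp hcast).eventually_ge_atTop _
  obtain ⟨N0, hN0⟩ :=
    eventually_atTop.1 (((((e1.and e2).and e3).and e4).and e5).and (eventually_ge_atTop 1))
  refine ⟨1 / (64 * 2 * 48), max N0 1, by norm_num, le_max_right _ _, ?_⟩
  intro N hN
  obtain ⟨⟨⟨⟨⟨h1, h2⟩, h3⟩, h4⟩, h5⟩, h6⟩ := hN0 N (le_trans (le_max_left _ _) hN)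
  have hN1 : (1 : ℝ) ≤ (N : ℝ) := by exact_mod_cast h6
  have hNpos : (0 : ℝ) < (N : ℝ) := by linarith
  set lN := Real.log (N : ℝ) with hlN
  have hlN0 : 0 < lN := by linarith
  obtain ⟨n, hn⟩ : ∃ t : ℕ, t = ⌊lN / 32⌋₊ := ⟨_, rfl⟩
  have hnu : (n : ℝ) ≤ lN / 32 := by rw [hn]; exact Nat.floor_le (by positivity)
  have hnl : lN / 32 < (n : ℝ) + 1 := by rw [hn]; exact Nat.lt_floor_add_one _
  have hn00 : (0 : ℝ) ≤ (n0 : ℝ) := Nat.cast_nonneg _
  have hn64 : lN / 64 ≤ (n : ℝ) := by linarith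
  have hnn0 : n0 ≤ n := by
    have : (n0 : ℝ) ≤ (n : ℝ) := by linarith
    exact_mod_cast this
  obtain ⟨⟨g1, g2⟩, g3⟩ := hn0 n hnn0
  have hn1 : 1 ≤ n := by omega
  have hn1r : (1 : ℝ) ≤ (n : ℝ) := by exact_mod_cast hn1
  have hnpos : (0 : ℝ) < (n : ℝ) := by linarith
  have hln0 : 0 ≤ Real.log (n : ℝ) := Real.log_nonneg hn1r
  refine ⟨n, hn1, by omega, ?_, ?_, ?_⟩
  · have ha : 2 * (n : ℝ) / ((n : ℝ) ^ 2 + 1) ≤ ε / 6 := by
      rw [div_le_div_iff₀ (by positivity) (by norm_num)]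
      have h7 : 12 ≤ ε * (n : ℝ) := by
        rw [div_le_iff₀ hε] at g1; linarith
      nlinarith [mul_le_mul_of_nonneg_right h7 hnpos.le]
    have hb : 6 ^ n / Real.sqrt ((N : ℝ) ^ (1 / 4 : ℝ)) ≤ ε / 6 := by
      have h8 : Real.sqrt ((N : ℝ) ^ (1 / 4 : ℝ)) = Real.exp (lN / 8) := by
        rw [Real.sqrt_eq_rpow, ← Real.rpow_mul hNpos.le, Real.rpow_def_of_pos hNpos, ← hlN]
        congr 1; ring
      have hl6 : Real.log 6 < 2 := by
        rw [Real.log_lt_iff_lt_exp (by norm_num)]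
        have h9 := Real.exp_one_gt_d9
        have h10 : Real.exp 2 = Real.exp 1 * Real.exp 1 := by rw [← Real.exp_add]; norm_num
        rw [h10]; nlinarith
      have h11 : (6 : ℝ) ^ n = Real.exp ((n : ℝ) * Real.log 6) := by
        rw [Real.exp_nat_mul, Real.exp_log (by norm_num)]
      rw [h8, h11, ← Real.exp_sub]
      have h12 : ε / 6 = Real.exp (-(Real.log (6 / ε))) := by
        rw [Real.exp_neg, Real.exp_log (by positivity)]; field_simp
      rw [h12]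
      apply Real.exp_le_exp.2
      have h13 : (n : ℝ) * Real.log 6 ≤ lN / 32 * 2 := by
        have h14 : 0 ≤ Real.log 6 := Real.log_nonneg (by norm_num)
        exact mul_le_mul hnu hl6.le h14 (by positivity)
      linarith
    have hc : Real.exp (Real.log (n : ℝ) / 48) * (1 - Real.log (n : ℝ) / (24 * (n : ℝ))) ^ n ≤
        ε / 6 := by
      have h15 : Real.log (n : ℝ) ≤ (n : ℝ) := by
        have := Real.log_le_sub_one_of_pos hnpos
        linarith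
      have h16 : 0 ≤ 1 - Real.log (n : ℝ) / (24 * (n : ℝ)) := by
        rw [sub_nonneg, div_le_one (by positivity)]; linarith
      have h17 : 1 - Real.log (n : ℝ) / (24 * (n : ℝ)) ≤
          Real.exp (-(Real.log (n : ℝ) / (24 * (n : ℝ)))) := by
        have := Real.add_one_le_exp (-(Real.log (n : ℝ) / (24 * (n : ℝ))))
        linarith
      have h18 : (1 - Real.log (n : ℝ) / (24 * (n : ℝ))) ^ n ≤
          Real.exp (-(Real.log (n : ℝ) / 24)) := by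
        calc (1 - Real.log (n : ℝ) / (24 * (n : ℝ))) ^ n ≤
              (Real.exp (-(Real.log (n : ℝ) / (24 * (n : ℝ))))) ^ n :=
              pow_le_pow_left₀ h16 h17 n
          _ = Real.exp ((n : ℝ) * (-(Real.log (n : ℝ) / (24 * (n : ℝ))))) := by
              rw [← Real.exp_nat_mul]
          _ = Real.exp (-(Real.log (n : ℝ) / 24)) := by
              congr 1; field_simp
      calc Real.exp (Real.log (n : ℝ) / 48) * (1 - Real.log (n : ℝ) / (24 * (n : ℝ))) ^ n ≤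
            Real.exp (Real.log (n : ℝ) / 48) * Real.exp (-(Real.log (n : ℝ) / 24)) :=
            mul_le_mul_of_nonneg_left h18 (Real.exp_pos _).le
        _ = Real.exp (-(Real.log (n : ℝ) / 48)) := by
            rw [← Real.exp_add]; congr 1; ring
        _ ≤ Real.exp (-(Real.log (6 / ε))) := by
            apply Real.exp_le_exp.2; linarith
        _ = ε / 6 := by
            rw [Real.exp_neg, Real.exp_log (by positivity)]; field_simp
    linarith
  · have hlN1 : 1 < lN := by linarith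
    have hll : 0 < Real.log lN := Real.log_pos hlN1
    have hsq : lN ≤ (n : ℝ) ^ 2 := by
      have h19 : (lN / 64) ^ 2 ≤ (n : ℝ) ^ 2 := pow_le_pow_left₀ (by positivity) hn64 2
      nlinarith
    have hlogn : Real.log lN / 2 ≤ Real.log (n : ℝ) := by
      have h17 := Real.log_le_log hlN0 hsq
      rw [Real.log_pow] at h17
      push_cast at h17
      linarith
    have h20 : lN / 64 * (Real.log lN / 2) ≤ (n : ℝ) * Real.log (n : ℝ) :=
      mul_le_mul hn64 hlogn (by positivity) hnpos.le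
    calc 1 / (64 * 2 * 48) * lN ^ 1 * Real.log lN = lN / 64 * (Real.log lN / 2) / 48 := by ring
      _ ≤ (n : ℝ) * Real.log (n : ℝ) / 48 := by linarith
  · intro g M hgM hg
    have hgpos : 0 < g := by
      rcases Nat.eq_zero_or_pos g with h | h
      · subst h; simp at hgM; omega
      · exact h
    have hg1 : (1 : ℝ) ≤ (g : ℝ) := by exact_mod_cast hgpos
    have hgM' : (g : ℝ) * (M : ℝ) = (N : ℝ) := by exact_mod_cast hgM
    have hM0 : (0 : ℝ) ≤ (M : ℝ) := Nat.cast_nonneg _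
    have hP : 0 < (N : ℝ) ^ (1 / 100 : ℝ) := Real.rpow_pos_of_pos hNpos _
    have hM : (N : ℝ) ^ (99 / 100 : ℝ) ≤ (M : ℝ) := by
      have h21 : (N : ℝ) ^ (1 / 100 : ℝ) * (N : ℝ) ^ (99 / 100 : ℝ) = (N : ℝ) := by
        rw [← Real.rpow_add hNpos]; norm_num
      have h22 : (N : ℝ) ≤ (N : ℝ) ^ (1 / 100 : ℝ) * (M : ℝ) := by
        rw [← hgM'] at hg ⊢
        exact mul_le_mul_of_nonneg_right hg hM0
      have h23 : (N : ℝ) ^ (1 / 100 : ℝ) * (N : ℝ) ^ (99 / 100 : ℝ) ≤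
          (N : ℝ) ^ (1 / 100 : ℝ) * (M : ℝ) := by rw [h21]; exact h22
      exact le_of_mul_le_mul_left h23 hP
    constructor
    · have h24 : ((N : ℝ) ^ (1 / 4 : ℝ)) ^ 2 = (N : ℝ) ^ (1 / 2 : ℝ) := by
        rw [← Real.rpow_natCast, ← Real.rpow_mul hNpos.le]; norm_num
      have h25 : (1 : ℝ) ≤ (N : ℝ) ^ (1 / 100 : ℝ) := by linarith
      have h26 : 1 + (g : ℝ) ≤ 2 * (N : ℝ) ^ (1 / 100 : ℝ) := by linarith
      have h27 : (N : ℝ) ^ (1 / 2 : ℝ) * (N : ℝ) ^ (1 / 100 : ℝ) = (N : ℝ) ^ (51 / 100 : ℝ) := by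
        rw [← Real.rpow_add hNpos]; norm_num
      have h28 : (N : ℝ) ^ (51 / 100 : ℝ) * (N : ℝ) ^ (48 / 100 : ℝ) =
          (N : ℝ) ^ (99 / 100 : ℝ) := by
        rw [← Real.rpow_add hNpos]; norm_num
      have hS : 0 < (N : ℝ) ^ (51 / 100 : ℝ) := Real.rpow_pos_of_pos hNpos _
      have hH : 0 < (N : ℝ) ^ (1 / 2 : ℝ) := Real.rpow_pos_of_pos hNpos _
      have h29 : 4 ≤ ε / 2 * (N : ℝ) ^ (48 / 100 : ℝ) := by
        rw [div_le_iff₀ hε] at h4; linarith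
      rw [h24]
      calc 2 * (N : ℝ) ^ (1 / 2 : ℝ) * (1 + (g : ℝ)) ≤
            2 * (N : ℝ) ^ (1 / 2 : ℝ) * (2 * (N : ℝ) ^ (1 / 100 : ℝ)) :=
            mul_le_mul_of_nonneg_left h26 (by positivity)
        _ = 4 * (N : ℝ) ^ (51 / 100 : ℝ) := by rw [← h27]; ring
        _ ≤ (ε / 2 * (N : ℝ) ^ (48 / 100 : ℝ)) * (N : ℝ) ^ (51 / 100 : ℝ) :=
            mul_le_mul_of_nonneg_right h29 hS.le
        _ = ε / 2 * (N : ℝ) ^ (99 / 100 : ℝ) := by rw [← h28]; ring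
        _ ≤ ε / 2 * (M : ℝ) := mul_le_mul_of_nonneg_left hM (by positivity)
    · have h30 : (N : ℝ) ^ (1 / 4 : ℝ) * (N : ℝ) ^ (74 / 100 : ℝ) =
          (N : ℝ) ^ (99 / 100 : ℝ) := by
        rw [← Real.rpow_add hNpos]; norm_num
      have hQ : 0 < (N : ℝ) ^ (1 / 4 : ℝ) := Real.rpow_pos_of_pos hNpos _
      calc 8 * (N : ℝ) ^ (1 / 4 : ℝ) ≤ (N : ℝ) ^ (74 / 100 : ℝ) * (N : ℝ) ^ (1 / 4 : ℝ) :=
            mul_le_mul_of_nonneg_right h5 hQ.le
        _ = (N : ℝ) ^ (99 / 100 : ℝ) := by rw [← h30]; ring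
        _ ≤ (M : ℝ) := hM

end Pool.Agent.H484.AL
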